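import Pool.Agent.H78.CNC.Nea
import Pool.Agent.H82.CNC.Blk
import Pool.Agent.H82.CNC.Cwg

/-!
# From a closed polynomial in the affine frame to `BLab`

`brg_evt`: windows `WG` with an affine frame (`AfD`, `AfB`); a closed polynomial in the coordinates of
the frame near the chart of `u` of the window `kn` on its cube gives `BLab` of this window, with the
bounds of the exponents and of the levels.
-/

set_option autoImplicit false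

namespace Pool.CNC78

open Finset Real MvPolynomial
open Pool.Agent.H49.Ent Pool.Agent.H32.Dense Pool.STK Pool.KA Pool.KSAT Pool.K2S Pool.PB Pool.S6C
open Pool.GEN Pool.CHT Pool.CHX Pool.ISO Pool.D2R Pool.V1E Pool.PKG
open Pool.AFF82 (AfN afc afr aC rk ru ru_pos AfD AfB)
open Pool.CNC76 (Clo)
open Pool.CNC28 (UU)
open Pool.SHR (relvF_low)

/-- **From a closed polynomial in the affine frame** to `BLab`. -/
theorem brg_evt {m J : ℕ} {F : Fam m J} {c : ℕ → Fin m} {D Dr N N₂ : ℕ} {R : ℕ → Prop}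
    {C a Eb ε₀ η₀ : ℝ} {Pt : ℝ → ℝ → ℝ} {o : ℕ → ℝ} {lv be b : ℕ → ℕ → ℝ} {κ : ℝ}
    {z : ℕ → ℕ → ℕ} {B B' B'' : F.Ω → Prop} {gc gT g₀ : ℕ → ℕ → ℕ}
    {G : ℕ → PtT F → ℕ → MvPolynomial (Option (Fin m)) ℝ}
    {H : ℕ → LnT F → ℕ → MvPolynomial (Option (Fin m)) ℝ}
    {T : ℕ → PtT F → ℕ → MvPolynomial (Option (Fin m)) ℝ}
    {TH : ℕ → LnT F → ℕ → MvPolynomial (Option (Fin m)) ℝ}
    {Gt : ℕ → PtT F → MvPolynomial (Option (Fin m)) ℝ}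
    {Ht : ℕ → LnT F → MvPolynomial (Option (Fin m)) ℝ}
    {n f x y gx a' kn kt x₂ D'' : ℕ} {ix gf : ℕ → ℕ} {θ : ℝ}
    {P : PtT F → ℕ → MvPolynomial (Option (Fin m)) ℝ}
    {PH : LnT F → ℕ → MvPolynomial (Option (Fin m)) ℝ} {Hp : F.Ω → MvPolynomial (Fin 3) ℝ}
    (W : WG c 3 D Dr N N₂ R C a Eb ε₀ η₀ Pt o lv be F b κ z B gc gT g₀ G H T TH Gt Ht)
    (hc : Set.InjOn c (Set.Iio 4)) (hη : 0 ≤ η₀) (hB' : Sub B' B)
    (A : AfD F c D n f x y (fun k => ⌊o (ix k) * J⌋₊) (g₀ (ix 0)) gf (fun k => g₀ (ix k)) gx θ B'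
      P PH (fun k => G (ix k)) (fun k => H (ix k)))
    (hbox : ∀ k ≤ n, ∀ ω, B' ω → AfB F c a' (fun k => ⌊o (ix k) * J⌋₊) (g₀ (ix 0))
      (fun k => g₀ (ix k)) P (fun k => G (ix k)) k ω)
    (hkn : kn ≤ n) (hkt : kt ≤ n) (hix : ix kn ≤ N₂) (hB'' : Sub B'' B')
    (hHp : ∀ ω ω', B'' ω → B'' ω' →
      slam F ⌊o (ix kt) * J⌋₊ ω = slam F ⌊o (ix kt) * J⌋₊ ω' → Hp ω = Hp ω')
    (hHd : ∀ ω, B'' ω → (Hp ω).totalDegree ≤ D'')
    (hnear : ∀ ω, B'' ω → ∀ z : Fin 3 → ℝ,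
      (∀ i, |z i - aC F c (fun k => ⌊o (ix k) * J⌋₊) (g₀ (ix 0)) P (fun k => G (ix k)) kn ω i| ≤
        rk a' (fun k => ⌊o (ix k) * J⌋₊) kn) →
      |eval z (UU F c (fun k => G (ix k)) (afr F c (fun k => ⌊o (ix k) * J⌋₊) P
        (fun k => G (ix k))) ⌊o (ix 0) * J⌋₊ (g₀ (ix 0) 0) (g₀ (ix 0) 1) kn ω) -
          eval z (Hp ω)| ≤ 2 ^ x₂ / 2 ^ g₀ (ix kn) 2) :
    ∃ (e h : ℕ) (Hq : LnT F → MvPolynomial (Option (Fin m)) ℝ), (e : ℝ) ≤ (Eb + 2 * η₀) * J ∧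
      (h : ℝ) ≤ η₀ * J ∧ (∀ l ≤ 2, (lv (ix kn) l - η₀) * J ≤ g₀ (ix kn) l ∧
        (g₀ (ix kn) l : ℝ) ≤ lv (ix kn) l * J) ∧
      BLab F c 2 D Dr D'' ⌊o (ix kn) * J⌋₊ ⌊o (ix kt) * J⌋₊ e h x₂ (g₀ (ix kn)) κ B B''
        (G (ix kn)) (H (ix kn)) Hq := by
  have hJ0 : (0 : ℝ) ≤ J := Nat.cast_nonneg J
  have hE0 := W.wb.Eb0
  have ev := W.wb.ev (ix kn) hix
  have hc2 : Set.InjOn c (Set.Iio 2) := hc.mono fun i hi => by
    have : i < 2 := hi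
    show i < 4
    omega
  have hc3 : Set.InjOn c (Set.Iio 3) := hc.mono fun i hi => by
    have : i < 3 := hi
    show i < 4
    omega
  have hcB : Sub B'' B := fun ω hω => hB' ω (hB'' ω hω)
  have hball := (ev.ball.mono (show 2 + 1 ≤ 3 + 1 by norm_num) (fun _ => le_rfl) le_rfl
    le_rfl).sub hcB
  have hrel := relvF_low ev.relb (by norm_num : 2 ≤ 3) hc3 ev.ball.depG
  obtain ⟨Hq, hq⟩ := blab_frm (n := kn) (o := ⌊o (ix 0) * J⌋₊) (s0 := g₀ (ix 0) 0)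
    (s1 := g₀ (ix 0) 1) (g := fun k => g₀ (ix k)) (G := fun k => G (ix k))
    (w := ⌊o (ix kt) * J⌋₊) (N := afr F c (fun k => ⌊o (ix k) * J⌋₊) P (fun k => G (ix k)))
    (ctr := aC F c (fun k => ⌊o (ix k) * J⌋₊) (g₀ (ix 0)) P (fun k => G (ix k)) kn)
    (ρ := rk a' (fun k => ⌊o (ix k) * J⌋₊) kn) hc2 hball hrel
    (fun ω ω' hω hω' e => (A.fr_clk hkt).2 ω ω' (hB'' ω hω) (hB'' ω' hω') e) hHp hHd
    (fun ω hω b' hb i => by
      refine ((hbox kn hkn ω (hB'' ω hω)).out b' hb i).trans ?_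
      unfold Pool.AFF82.rk
      exact mul_le_mul_of_nonneg_right (pow_le_pow_right₀ (by norm_num) (by omega))
        (ru_pos _ _).le) hnear
  refine ⟨_, _, Hq, ?_, ?_, fun l hl => W.wb.sds (ix kn) hix l (by omega), hq⟩
  · refine (Nat.floor_le (by positivity)).trans (le_of_eq ?_)
    ring
  · exact Nat.floor_le (by positivity)

end Pool.CNC78
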