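import Pool.Agent.H23.D2.Bal
import Pool.Agent.H46.D2.NoLb

/-!
# A thin label from a closed polynomial which is near the ball chart

`inc_of_bal`: the boxes of a thin chain are inside the dilated boxes of the ball, if the labels agree
on the natural boxes of the ball. `lab_of_ball`: a closed polynomial which is near the ball chart of the
target on the natural box of the ball is a label over the thin chain.
-/

set_option autoImplicit false

namespace Pool.CNC78

open Finset Real MvPolynomial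
open Pool.Agent.H49.Ent Pool.Agent.H32.Dense Pool.STK Pool.KA Pool.KSAT Pool.K2S Pool.PB Pool.S6C
open Pool.GEN Pool.CHT Pool.CHX Pool.ISO Pool.D2R
open Pool.NLB46 (Lab)

variable {m J : ℕ}

/-- **The boxes of a thin chain are inside the dilated boxes of the ball.** -/
theorem inc_of_bal (D r : ℕ) : ∃ C : ℕ, ∀ {m : ℕ} {c : ℕ → Fin m} {a h v : ℕ} {t : ℝ}
    {T G : ℕ → MvPolynomial (Option (Fin m)) ℝ} {gT g : ℕ → ℕ}, Set.InjOn c (Set.Iio r) →
    (∀ l, (T l).totalDegree ≤ D) → (∀ l, (G l).totalDegree ≤ D) → (∀ l, DepC c l (T l)) →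
    (∀ l, DepC c l (G l)) → (∀ l < r, g l ≤ gT l + v) →
    (∀ l < r, ∀ b, NBx c G g a t l b → |eval b (T l) - eval b (G l)| ≤ 2 ^ h / 2 ^ g l) →
    ∀ i ≤ r, ∀ b, NBx c T gT a t i b → ∀ j < i,
      |b (some (c j)) - eval b (G j)| ≤ 2 ^ (C * (h + v + 1)) / 2 ^ g j := by
  obtain ⟨c₀, D₁, hD₁, hdil⟩ := nbx_dil r (fun _ => D)
  refine ⟨(c₀ + 1) * (1 + D₁) ^ r, ?_⟩
  intro m c a h v t T G gT g hc hdT hdG hpT hpG hg hTG i hi b hb j hj
  obtain ⟨x, hx⟩ : ∃ x, x = h + v + 1 := ⟨_, rfl⟩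
  rw [← hx]
  have key : ∀ j < r, NBx c T gT a t (j + 1) b →
      |b (some (c j)) - eval b (G j)| ≤ 2 ^ ((c₀ + 1) * (1 + D₁) ^ (j + 1) * x) / 2 ^ g j := by
    intro j
    induction j using Nat.strong_induction_on with
    | _ j ih =>
    intro hj hb
    obtain ⟨n, hn⟩ : ∃ n, n = (c₀ + 1) * (1 + D₁) ^ j * x := ⟨_, rfl⟩
    have h1 : ∀ l < j, |b (some (c l)) - eval b (G l)| ≤ 2 ^ n / 2 ^ g l := fun l hl => by
      refine (ih l hl (by omega) (hb.mono le_rfl (by omega))).trans
        (div_le_div_of_nonneg_right (pow_le_pow_right₀ (by norm_num) ?_) (by positivity))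
      rw [hn]
      exact Nat.mul_le_mul_right x (Nat.mul_le_mul_left _
        (Nat.pow_le_pow_right (by omega) (by omega)))
    have h2 := hdil n hj (hc.mono fun y hy => by rw [Set.mem_Iio] at hy ⊢; omega)
      hdG hpG (G := G) (Q := T j - G j) (g := g) (a := a) (t := t) (M := 2 ^ h / 2 ^ g j)
      (fun b b' e1 e2 => by rw [map_sub, map_sub, hpT j b b' e1 e2, hpG j b b' e1 e2])
      ((totalDegree_sub _ _).trans (max_le (hdT j) (hdG j))) (by positivity)
      (fun b hb => by rw [map_sub]; exact hTG j hj b hb) b hb.1 h1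
    rw [map_sub] at h2
    have h3 := hb.2 j (Nat.lt_succ_self j)
    have h4 : (1 : ℝ) / 2 ^ gT j ≤ 2 ^ v / 2 ^ g j := by
      rw [div_le_div_iff₀ (by positivity) (by positivity), one_mul, ← pow_add]
      exact pow_le_pow_right₀ (by norm_num) (by have := hg j hj; omega)
    have h5 : |b (some (c j)) - eval b (G j)| ≤
        2 ^ v / 2 ^ g j + 2 ^ (c₀ + n * D₁) * (2 ^ h / 2 ^ g j) := by
      have e1 : b (some (c j)) - eval b (G j) = (b (some (c j)) - eval b (T j)) +
        (eval b (T j) - eval b (G j)) := by ring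
      rw [e1]
      exact (abs_add_le _ _).trans (add_le_add (h3.trans h4) h2)
    have h6 : (2 : ℝ) ^ v ≤ 2 ^ (c₀ + n * D₁ + h + v) :=
      pow_le_pow_right₀ (by norm_num) (by omega)
    have h7 : (2 : ℝ) ^ (c₀ + n * D₁) * 2 ^ h ≤ 2 ^ (c₀ + n * D₁ + h + v) := by
      rw [← pow_add]
      exact pow_le_pow_right₀ (by norm_num) (by omega)
    have h8 : c₀ + n * D₁ + h + v + 1 ≤ (c₀ + 1) * (1 + D₁) ^ (j + 1) * x := by
      have e1 : (c₀ + 1) * (1 + D₁) ^ (j + 1) * x = n + n * D₁ := by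
        rw [hn, pow_succ]
        ring
      have e2 : c₀ + x ≤ n := by
        rw [hn]
        have e3 : 1 ≤ (1 + D₁) ^ j := Nat.one_le_pow _ _ (by omega)
        have e4 : 1 ≤ x := by omega
        have e5 : (c₀ + 1) * 1 * x ≤ (c₀ + 1) * (1 + D₁) ^ j * x :=
          Nat.mul_le_mul_right x (Nat.mul_le_mul_left _ e3)
        have e6 : c₀ * 1 ≤ c₀ * x := Nat.mul_le_mul_left c₀ e4
        have e7 : (c₀ + 1) * 1 * x = c₀ * x + x := by ring
        omega
      omega
    calc |b (some (c j)) - eval b (G j)| ≤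
          2 ^ v / 2 ^ g j + 2 ^ (c₀ + n * D₁) * (2 ^ h / 2 ^ g j) := h5
      _ = (2 ^ v + 2 ^ (c₀ + n * D₁) * 2 ^ h) / 2 ^ g j := by ring
      _ ≤ 2 ^ (c₀ + n * D₁ + h + v + 1) / 2 ^ g j := by
          refine div_le_div_of_nonneg_right ?_ (by positivity)
          rw [pow_succ]
          linarith
      _ ≤ _ := div_le_div_of_nonneg_right (pow_le_pow_right₀ (by norm_num) h8) (by positivity)
  refine (key j (by omega) (hb.mono le_rfl (by omega))).trans
    (div_le_div_of_nonneg_right (pow_le_pow_right₀ (by norm_num) ?_) (by positivity))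
  exact Nat.mul_le_mul_right x (Nat.mul_le_mul_left _
    (Nat.pow_le_pow_right (by omega) (by omega)))

/-- The gradient exponents of the thin chain and of the ball. -/
theorem nlp_thin {g gT : ℕ → ℕ} {l r p v : ℕ} (hp : p ≤ g r)
    (hg : ∀ j < r, g j ≤ gT j + v) :
    nlp g l r ≤ nlp (fun j => if j < r then gT j else p) l r + v := by
  unfold nlp
  simp only [lt_irrefl, if_false]
  have h1 : (Finset.Icc l r).sup g ≤
      max ((Finset.Icc l r).sup (fun j => if j < r then gT j else p) + v) (g r) := by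
    refine Finset.sup_le fun j hj => ?_
    obtain ⟨h2, h3⟩ := Finset.mem_Icc.1 hj
    rcases Nat.lt_or_ge j r with h4 | h4
    · refine le_trans ?_ (le_max_left _ _)
      have h5 := Finset.le_sup (f := fun j => if j < r then gT j else p) hj
      simp only [if_pos h4] at h5
      have := hg j h4
      omega
    · rw [show j = r by omega]
      exact le_max_right _ _
  omega

/-- **A thin label from a closed polynomial near the ball chart.** -/
theorem lab_of_ball (D D' r : ℕ) : ∃ C : ℕ, ∀ {m J : ℕ} {F : Fam m J} {c : ℕ → Fin m}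
    {a w e e₁ u x v p : ℕ} {g gT : ℕ → ℕ} {B : F.Ω → Prop}
    {T G : PtT F → ℕ → MvPolynomial (Option (Fin m)) ℝ}
    {H : LnT F → ℕ → MvPolynomial (Option (Fin m)) ℝ}
    {Ht : LnT F → MvPolynomial (Option (Fin m)) ℝ}, Set.InjOn c (Set.Iio r) →
    ChOK F c (r + 1) (fun _ => D) a a e g B G H → (∀ s, (Ht s).totalDegree ≤ D') →
    (∀ s, DepC c r (Ht s)) →
    (∀ ω, B ω → ∀ b, NBx c (T (ptr F J ω)) gT a (F.t ω) r b → ∀ j < r,
      |b (some (c j)) - eval b (G (ptr F J ω) j)| ≤ 2 ^ u / 2 ^ g j) →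
    (∀ ω, B ω → ∀ b, NBx c (G (ptr F J ω)) g a (F.t ω) r b →
      |eval b (G (ptr F J ω) r) - eval b (Ht (slam F w ω))| ≤ 2 ^ x / 2 ^ g r) →
    (∀ l < r, g l ≤ gT l + v) → p + C * (u + x + 1) ≤ g r → e + C * (u + 1) + v ≤ e₁ →
    Lab F c r (max D D') a w e₁ p gT T B (fun y => G y r) Ht := by
  obtain ⟨c₀, D₁, hD₁, hdil⟩ := nbx_dil (r + 1) (fun _ => max D D')
  refine ⟨c₀ + D₁ + 1, ?_⟩
  intro m J F c a w e e₁ u x v p g gT B T G H Ht hc hG hdH hpH hinc hnear hg hp he
  have hC : c₀ + u * D₁ + x ≤ (c₀ + D₁ + 1) * (u + x + 1) := by nlinarith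
  have hC' : c₀ + u * D₁ ≤ (c₀ + D₁ + 1) * (u + 1) := by nlinarith
  have dil : ∀ (ω : F.Ω) (Q : MvPolynomial (Option (Fin m)) ℝ) (M : ℝ), B ω → DepC c r Q →
      Q.totalDegree ≤ max D D' → 0 ≤ M →
      (∀ b, NBx c (G (ptr F J ω)) g a (F.t ω) r b → |eval b Q| ≤ M) →
      ∀ b, NBx c (T (ptr F J ω)) gT a (F.t ω) r b → |eval b Q| ≤ 2 ^ (c₀ + u * D₁) * M := by
    intro ω Q M hω hQ hQd hM hQM b hb
    exact hdil u (Nat.lt_succ_self r) hc (fun l => (hG.degG _ l).trans (le_max_left _ _))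
      (hG.depG _) hQ hQd hM hQM b hb.1 (hinc ω hω b hb)
  refine ⟨fun y => (hG.degG y r).trans (le_max_left _ _), fun s => (hdH s).trans
    (le_max_right _ _), fun y => hG.depG y r, hpH, fun ω hω => ?_, fun ω hω b hb => ?_,
    fun ω hω b hb l hl => ?_⟩
  · refine (hG.pos ω hω r (Nat.lt_succ_self r)).trans (inv_mono ?_)
    omega
  · have h1 := dil ω (G (ptr F J ω) r - Ht (slam F w ω)) (2 ^ x / 2 ^ g r) hω
      (fun b b' e1 e2 => by
        rw [map_sub, map_sub, hG.depG _ r b b' e1 e2, hpH _ b b' e1 e2])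
      ((totalDegree_sub _ _).trans (max_le ((hG.degG _ r).trans (le_max_left _ _))
        ((hdH _).trans (le_max_right _ _)))) (by positivity)
      (fun b hb => by rw [map_sub]; exact hnear ω hω b hb) b hb
    rw [map_sub] at h1
    refine h1.trans ?_
    rw [← mul_div_assoc, ← pow_add, div_le_div_iff₀ (by positivity) (by positivity), one_mul,
      ← pow_add]
    exact pow_le_pow_right₀ (by norm_num) (by omega)
  · have h1 := dil ω (pderiv (some (c l)) (G (ptr F J ω) r)) (2 ^ (e + nlp g l r)) hω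
      (DepC.pderiv (hG.depG _ r) l)
      (totalDegree_pdσ ((hG.degG _ r).trans (le_max_left _ _)) _) (by positivity)
      (fun b hb => hG.lip ω hω r (Nat.lt_succ_self r) b hb l hl) b hb
    refine h1.trans ?_
    rw [← pow_add]
    refine pow_le_pow_right₀ (by norm_num) ?_
    have h2 := nlp_thin (l := l) (r := r) (p := p) (v := v) (by omega) hg
    omega

end Pool.CNC78
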