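import Pool.Agent.H78.CNC.Sta
import Pool.Agent.H28.CNC.Cor

/-!
# A closed polynomial in the coordinates of the frame gives `BLab`

`clo_fun`: a variable which is a function of the line and its window on an event is the value of a
function on all lines. `near_frm`: a closed polynomial of the coordinates of the frame, which is near
the chart of the ball on the cube, gives the function `Ht` of `BLab`. `blab_frm`: the same as `BLab`.
-/

set_option autoImplicit false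

namespace Pool.CNC78

open Finset Real MvPolynomial
open Pool.Agent.H49.Ent Pool.Agent.H32.Dense Pool.STK Pool.KA Pool.KSAT Pool.K2S Pool.PB Pool.S6C
open Pool.GEN Pool.CHT Pool.CHX Pool.ISO Pool.D2R Pool.PKG
open Pool.AFF82 (AfN afc pul psh psh_deg psh_dep eval_psh pul_afc)
open Pool.CNC76 (Clo)
open Pool.CNC28 (UU)

variable {m J : ℕ}

/-- **A closed variable is the value of a function**, with a given property for all values. -/
theorem clo_fun {Ω S T : Type} {B : Ω → Prop} {sl : Ω → S} {f : Ω → T}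
    (h : ∀ ω ω', B ω → B ω' → sl ω = sl ω' → f ω = f ω') {R : T → Prop} (hR : ∀ ω, B ω → R (f ω))
    {t₀ : T} (h₀ : R t₀) : ∃ φ : S → T, (∀ s, R (φ s)) ∧ ∀ ω, B ω → φ (sl ω) = f ω := by
  classical
  refine ⟨fun s => if hs : ∃ ω, B ω ∧ sl ω = s then f hs.choose else t₀, fun s => ?_,
    fun ω hω => ?_⟩
  · show R (if hs : ∃ ω, B ω ∧ sl ω = s then f hs.choose else t₀)
    split_ifs with hs
    · exact hR _ hs.choose_spec.1
    · exact h₀
  · have hs : ∃ ω', B ω' ∧ sl ω' = sl ω := ⟨ω, hω, rfl⟩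
    show (if hs : ∃ ω', B ω' ∧ sl ω' = sl ω then f hs.choose else t₀) = f ω
    rw [dif_pos hs]
    exact h _ _ hs.choose_spec.1 hω hs.choose_spec.2

/-- **A closed polynomial of the coordinates of the frame**, near the chart of the ball. -/
theorem near_frm {F : Fam m J} {c : ℕ → Fin m} {B : F.Ω → Prop} {D' n w o s0 s1 : ℕ}
    {g : ℕ → ℕ → ℕ} {G : ℕ → PtT F → ℕ → MvPolynomial (Option (Fin m)) ℝ} {N : F.Ω → AfN}
    {Hp : F.Ω → MvPolynomial (Fin 3) ℝ} {ctr : F.Ω → Fin 3 → ℝ} {ρ M : ℝ} {wn : ℕ}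
    (hc : Set.InjOn c (Set.Iio 2)) (hG : ∀ y, DepC c 2 (G n y 2))
    (hN : ∀ ω ω', B ω → B ω' → slam F w ω = slam F w ω' → N ω = N ω')
    (hH : ∀ ω ω', B ω → B ω' → slam F w ω = slam F w ω' → Hp ω = Hp ω')
    (hHd : ∀ ω, B ω → (Hp ω).totalDegree ≤ D')
    (hbx : ∀ ω, B ω → ∀ b, NBx c (G n (ptr F J ω)) (g n) wn (F.t ω) 2 b → ∀ i,
      |afc c (N ω) o s0 s1 b i - ctr ω i| ≤ ρ)
    (hnear : ∀ ω, B ω → ∀ z : Fin 3 → ℝ, (∀ i, |z i - ctr ω i| ≤ ρ) →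
      |eval z (UU F c G N o s0 s1 n ω) - eval z (Hp ω)| ≤ M) :
    ∃ Ht : LnT F → MvPolynomial (Option (Fin m)) ℝ, (∀ s, (Ht s).totalDegree ≤ D') ∧
      (∀ s, DepC c 2 (Ht s)) ∧ ∀ ω, B ω → ∀ b, NBx c (G n (ptr F J ω)) (g n) wn (F.t ω) 2 b →
        |eval b (G n (ptr F J ω) 2) - eval b (Ht (slam F w ω))| ≤ M := by
  obtain ⟨φ, h1, h2⟩ := clo_fun (B := B) (sl := slam F w)
    (f := fun ω => psh c (N ω) o s0 s1 (Hp ω))
    (fun ω ω' hω hω' e => by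
      show psh c (N ω) o s0 s1 (Hp ω) = psh c (N ω') o s0 s1 (Hp ω')
      rw [hN ω ω' hω hω' e, hH ω ω' hω hω' e])
    (R := fun P => P.totalDegree ≤ D' ∧ DepC c 2 P)
    (fun ω hω => ⟨psh_deg (hHd ω hω), psh_dep _⟩) (t₀ := 0)
    ⟨by rw [totalDegree_zero]; exact Nat.zero_le _, fun b b' _ _ => by rw [map_zero, map_zero]⟩
  refine ⟨φ, fun s => (h1 s).1, fun s => (h1 s).2, fun ω hω b hb => ?_⟩
  rw [h2 ω hω, eval_psh]
  have h3 := hnear ω hω _ (hbx ω hω b hb)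
  rwa [show UU F c G N o s0 s1 n ω = pul c (N ω) o s0 s1 0 (G n (ptr F J ω) 2) from rfl,
    pul_afc hc (hG _)] at h3

/-- **`BLab` from a closed polynomial of the coordinates of the frame.** -/
theorem blab_frm {F : Fam m J} {c : ℕ → Fin m} {B₀ B : F.Ω → Prop}
    {D Dr D' n w wn o s0 s1 e h x : ℕ} {g : ℕ → ℕ → ℕ} {κ : ℝ}
    {G : ℕ → PtT F → ℕ → MvPolynomial (Option (Fin m)) ℝ}
    {H : LnT F → ℕ → MvPolynomial (Option (Fin m)) ℝ} {N : F.Ω → AfN}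
    {Hp : F.Ω → MvPolynomial (Fin 3) ℝ} {ctr : F.Ω → Fin 3 → ℝ} {ρ : ℝ}
    (hc : Set.InjOn c (Set.Iio 2)) (hball : ChOK F c 3 (fun _ => D) wn wn e (g n) B (G n) H)
    (hrel : RelvF F c 2 wn wn (g n) Dr h κ B₀ (G n))
    (hN : ∀ ω ω', B ω → B ω' → slam F w ω = slam F w ω' → N ω = N ω')
    (hH : ∀ ω ω', B ω → B ω' → slam F w ω = slam F w ω' → Hp ω = Hp ω')
    (hHd : ∀ ω, B ω → (Hp ω).totalDegree ≤ D')
    (hbx : ∀ ω, B ω → ∀ b, NBx c (G n (ptr F J ω)) (g n) wn (F.t ω) 2 b → ∀ i,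
      |afc c (N ω) o s0 s1 b i - ctr ω i| ≤ ρ)
    (hnear : ∀ ω, B ω → ∀ z : Fin 3 → ℝ, (∀ i, |z i - ctr ω i| ≤ ρ) →
      |eval z (UU F c G N o s0 s1 n ω) - eval z (Hp ω)| ≤ 2 ^ x / 2 ^ g n 2) :
    ∃ Ht : LnT F → MvPolynomial (Option (Fin m)) ℝ,
      BLab F c 2 D Dr D' wn w e h x (g n) κ B₀ B (G n) H Ht := by
  obtain ⟨Ht, h1, h2, h3⟩ := near_frm (wn := wn) hc (fun y => hball.depG y 2) hN hH hHd hbx hnear
  exact ⟨Ht, hball, hrel, h1, h2, h3⟩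

end Pool.CNC78
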