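import Pool.Agent.H78.CNC.Sta

/-!
# A drop of the level: no closed polynomial near the ball chart

`lab_no'`: if the level of the target has a drop, then there is on no event of the class a large part
with a closed polynomial near the ball chart (`BLab`).
-/

set_option autoImplicit false

namespace Pool.CNC78

open Finset Real MvPolynomial
open Pool.Agent.H49.Ent Pool.Agent.H32.Dense Pool.STK Pool.KA Pool.KSAT Pool.K2S Pool.PB Pool.S6C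
open Pool.GEN Pool.CHT Pool.CHX Pool.ISO Pool.D2R Pool.PKG
open Pool.LBT (ThrOf)
open Pool.LEV (Law)
open Pool.NLB46 (Lab)
open Pool.RCD (floor_le)

variable {m : ℕ}

/-- **A drop of the level of the target**: no closed polynomials near the ball charts. -/
theorem lab_no' (r S₂ D : ℕ) (hr : 1 ≤ r) (hS₂ : 1 ≤ S₂) : ∃ Dr : ℕ, D ≤ Dr ∧
    ∀ D' : ℕ, ∃ C : ℝ, 1 ≤ C ∧ ∀ {m : ℕ} {S : PCl m} {al : ℝ} {g₀ : ℝ → ℝ}
    {P : List (Fin m) × Fin m → ℝ → ℝ → ℝ} {θ : ℝ}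
    {P₂ : ℕ → List (Fin m) × Fin m → ℝ → ℝ → ℝ} {θ₂ Eb e₂ : ℕ → ℝ}
    {c : ℕ → Fin m} {Pt : ℝ → ℝ → ℝ} {rt : ℝ → ℝ} {h K₀ g : ℝ} {L T : ℕ → ℝ → ℝ → ℝ}
    {Sl : ℕ → ℝ} {κ : ℕ → Kg} {G : Set ℝ} {S₀ N : ℕ} {A V : ℕ → ℝ} {N' : ℕ} {V' : ℕ → ℝ}
    {K ε q t : ℝ}
    (_ : RecG S al g₀ P θ P₂ θ₂ Eb e₂ c Pt rt h K₀ g L T Sl κ G S₀ N A V S₂ N' V' K ε q t)
    (_ : 1 ≤ K) (_ : 0 ≤ ε) (_ : r < m) (_ : ∀ l < r, κ l = .one) {k : ℕ} (_ : k < N)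
    (_ : A k = 1) (_ : V k = 0) {η del : ℝ} (_ : 0 < η) (_ : del ≤ 1)
    (_ : C * (η + ε * q) ≤ del * q) (_ : L r (t + q) t + del * q < L r (t + q) (t + q))
    {K₁ : ℝ} (_ : 0 < K₁), ∃ κ₀ : ℝ, 0 < κ₀ ∧ Bas S (fun J F A' =>
      ¬ ∃ (B₀ B : F.Ω → Prop) (e h x : ℕ) (g : ℕ → ℕ)
        (G : PtT F → ℕ → MvPolynomial (Option (Fin m)) ℝ)
        (H : LnT F → ℕ → MvPolynomial (Option (Fin m)) ℝ)
        (Ht : LnT F → MvPolynomial (Option (Fin m)) ℝ), Sub B A' ∧ Sub B B₀ ∧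
        Pe F.p A' ≤ K₁ * Pe F.p B ∧ Pe F.p B₀ ≤ K₁ * Pe F.p B ∧
        (e : ℝ) ≤ (Eb r + η) * J ∧ (h : ℝ) ≤ η * J ∧ (x : ℝ) ≤ η * J ∧
        (∀ l ≤ r, (L l (t + q) (t + q) - η) * J ≤ g l ∧ (g l : ℝ) ≤ L l (t + q) (t + q) * J) ∧
        BLab F c r D Dr D' ⌊(t + q) * J⌋₊ ⌊t * J⌋₊ e h x g κ₀ B₀ B G H Ht) := by
  obtain ⟨D₁, hD₁, hthin⟩ := thin_labs r S₂ hr hS₂
  obtain ⟨D₂, hD₂⟩ : ∃ D₂, D₂ = max D D₁ := ⟨_, rfl⟩
  have hDD : D ≤ D₂ := by rw [hD₂]; exact le_max_left _ _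
  have hD1D : D₁ ≤ D₂ := by rw [hD₂]; exact le_max_right _ _
  refine ⟨D₂, hDD, fun D' => ?_⟩
  obtain ⟨C₁, hbal⟩ := bal_out D₂ r (hD₁.trans hD1D)
  obtain ⟨C₂, hinc⟩ := inc_of_bal D₂ r
  obtain ⟨C₃, hlab⟩ := lab_of_ball D₂ D' r
  -- the constant: exponents in terms of `η + ε q`
  obtain ⟨M, hM⟩ : ∃ M : ℝ, M = C₃ * (C₂ * (2 * C₁ + 9) + 2) + 6 := ⟨_, rfl⟩
  have hM0 : 6 ≤ M := by
    rw [hM]
    have : (0 : ℝ) ≤ C₃ * (C₂ * (2 * C₁ + 9) + 2) := by positivity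
    linarith
  refine ⟨2 * M, by linarith, ?_⟩
  intro m S al g₀ P θ P₂ θ₂ Eb e₂ c Pt rt h K₀ g L T Sl κ G S₀ N A V N' V' K ε q t R hK hε hrm hκ
    k hk hA hV η del hη hdel hC hdrop K₁ hK₁
  have hq := R.q0
  have ht0 := R.t0
  have ht1 := R.t1
  have hKq : q ≤ K * q := le_mul_of_one_le_left hq.le hK
  have hεq : 0 ≤ ε * q := mul_nonneg hε hq.le
  have W := R.tg r hr hrm
  have htp : 0 < t := by linarith
  have e1 : t + A k * q = t + q := by rw [hA, one_mul]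
  have e2 : t + V k * q = t := by rw [hV, zero_mul, add_zero]
  obtain ⟨ρ, vs, e, e₀, E, sg, Q, hPD, hE0, -⟩ := (W.pt k hk).1
  rw [e1, e2] at hPD
  have hrat := W.ratN hk
  rw [e1, e2] at hrat
  have hroomA : ∀ j ≤ r, L j (t + q) (t + q) + Eb r + 3 * K * q < 1 := fun j hj =>
    W.room j hj (t + q) (by rw [add_sub_cancel_left, abs_of_pos hq]; exact hKq)
  have hEb := W.Eb0
  have h3K : 3 * q ≤ 3 * K * q := by linarith
  have hX1 : ∀ j ≤ r, L j (t + q) (t + q) < 1 := fun j hj => by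
    have := hroomA j hj
    linarith
  have hLw : ∀ j ≤ r, L j (t + q) t ≤ L j (t + q) (t + q) := fun j hj =>
    (R.lawL j (by omega)).mono_w (t + q) t (t + q) htp.le (by linarith) le_rfl (by linarith)
  have hlow : t + q ≤ L r (t + q) (t + q) := R.low_at hrm (by linarith) le_rfl (by linarith)
  have heθ : e₂ r < θ₂ r * t := W.eθ t (by rw [sub_self, abs_zero]; positivity)
  have hEe : Eb r + 3 * q < e₂ r := by
    have := W.Ebe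
    linarith
  have hinj : Set.InjOn c (Set.Iio (r + 1)) := R.inj.mono fun x hx => by
    rw [Set.mem_Iio] at hx ⊢
    omega
  have hinj' : Set.InjOn c (Set.Iio r) := hinj.mono fun x hx => by
    rw [Set.mem_Iio] at hx ⊢
    omega
  obtain ⟨K₂, dT, dN, hK₂, -, hdN, hth, -⟩ := hthin R.thr R.th0 R.tmh hinj (R.lawL r hrm) hPD 0
    η η hη hη
  -- the events
  obtain ⟨κ', hκ'⟩ : ∃ κ' : ℝ, κ' = 1 / (K₁ * K₂) := ⟨_, rfl⟩
  have hκ'0 : 0 < κ' := by rw [hκ']; positivity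
  obtain ⟨κ₀, hκ₀⟩ : ∃ κ₀ : ℝ, κ₀ = κ' / (4 * 4 ^ r) := ⟨_, rfl⟩
  have hκ₀0 : 0 < κ₀ := by rw [hκ₀]; positivity
  have hκκ : κ₀ * (4 * 4 ^ r) ≤ κ' := by
    rw [hκ₀, div_mul_cancel₀ _ (by positivity)]
  have hδq : 0 < η + ε * q := by linarith
  refine ⟨κ₀, hκ₀0, ?_⟩
  have hgn : 0 < L r (t + q) (t + q) - 2 * M * (η + ε * q) - L r (t + q) t := by
    have := hC
    linarith
  obtain ⟨δ, hδ, hno⟩ := rat_no W.thr₂ W.th₂0 (c := c) (i := r) (max D₂ D') 0 htp.le (by linarith)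
    (by linarith) heθ (lt_of_le_of_lt (hLw r le_rfl) (hX1 r le_rfl)) hrat hgn
  obtain ⟨Kc, hKc⟩ : ∃ Kc : ℝ, Kc = K₁ * K₂ * (2 * 4 ^ r) := ⟨_, rfl⟩
  have hKc0 : 0 < Kc := by rw [hKc]; positivity
  -- large `J`
  obtain ⟨J₁, hJ₁⟩ := exists_nat_ge (M / η)
  obtain ⟨J₂, hJ₂⟩ := exists_nat_ge (Real.log Kc / δ)
  refine Bas.mono (J₁ + J₂ + 1) (hno.and (bas_ev hth (κ := 1 / K₁) (by positivity))) ?_
  rintro J hJ F A' ⟨hnoA, hthA⟩ ⟨B₀, B, e', h', x, g', G', H', Ht, a1, b1, a2, b2, b3, b4, b5, b6,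
    b7⟩
  obtain ⟨B₂, c1, c2, -, T', TH, c3⟩ := hthA B a1 (by
    rw [one_div, inv_mul_le_iff₀ hK₁]
    exact a2)
  have hJ0 : (0 : ℝ) ≤ J := Nat.cast_nonneg J
  have j1 : M ≤ η * J := by
    have e3 : (J₁ : ℝ) ≤ J := by exact_mod_cast (by omega : J₁ ≤ J)
    have e4 := hJ₁.trans e3
    rw [div_le_iff₀ hη] at e4
    linarith
  have j2 : Real.log Kc ≤ δ * J := by
    have e3 : (J₂ : ℝ) ≤ J := by exact_mod_cast (by omega : J₂ ≤ J)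
    have e4 := hJ₂.trans e3
    rw [div_le_iff₀ hδ] at e4
    linarith
  have hp := Pe_nonneg F.isLaw
  -- the precisions of the thin chain
  obtain ⟨gT, hgT⟩ : ∃ gT : ℕ → ℕ, gT = fun l =>
    ⌊(lvN P c r (L r) l (t + q) t - dN l) * J⌋₊ := ⟨_, rfl⟩
  rw [← hgT] at c3
  have hgTl : ∀ l ≤ r, gT l = ⌊(L l (t + q) t - dN l) * J⌋₊ := fun l hl => by
    rw [hgT, R.lv_at hrm hl]
  have hgTJ : ∀ l ≤ r, gT l ≤ J := fun l hl => by
    rw [hgTl l hl]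
    refine floor_le ?_ J
    have e3 := hLw l hl
    have e4 := hX1 l hl
    have e5 := (hdN l hl).1
    linarith
  obtain ⟨v, hv⟩ : ∃ v : ℕ, v = ⌈(η + 2 * (ε * q)) * J⌉₊ + 1 := ⟨_, rfl⟩
  have hv1 : (η + 2 * (ε * q)) * J + 1 ≤ v := by
    rw [hv]
    push_cast
    linarith [Nat.le_ceil ((η + 2 * (ε * q)) * (J : ℝ))]
  have hv2 : (v : ℝ) ≤ (η + 2 * (ε * q)) * J + 2 := by
    rw [hv]
    push_cast
    linarith [Nat.ceil_lt_add_one (show 0 ≤ (η + 2 * (ε * q)) * (J : ℝ) by positivity)]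
  have hgv : ∀ l < r, g' l ≤ gT l + v := by
    intro l hl
    have e3 := (b6 l hl.le).2
    have e4 := lv_pair R hK (by omega : l < m) (hκ l hl) (hX1 l hl.le)
    have e5 := (hdN l hl.le).2.1
    have e6 := Nat.lt_floor_add_one ((L l (t + q) t - dN l) * (J : ℝ))
    rw [← hgTl l hl.le] at e6
    have e7 : (g' l : ℝ) ≤ gT l + v := by
      have e8 : L l (t + q) (t + q) * J ≤ (L l (t + q) t + ε * q) * J :=
        mul_le_mul_of_nonneg_right e4 hJ0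
      have e9 : (L l (t + q) t - η) * J ≤ (L l (t + q) t - dN l) * J :=
        mul_le_mul_of_nonneg_right (by linarith) hJ0
      have e10 : 0 ≤ ε * q * J := mul_nonneg hεq hJ0
      linarith
    exact_mod_cast e7
  -- the thin chain against the ball
  have hwa : ⌊t * (J : ℝ)⌋₊ ≤ ⌊(t + q) * (J : ℝ)⌋₊ :=
    Nat.floor_le_floor (mul_le_mul_of_nonneg_right (by linarith) hJ0)
  have haJ : ⌊(t + q) * (J : ℝ)⌋₊ ≤ J := floor_le (by linarith) J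
  have hcT : ChOK F c (r + 1) (fun _ => D₂) ⌊(t + q) * (J : ℝ)⌋₊ ⌊t * (J : ℝ)⌋₊
      ⌊(E 0 + η) * (J : ℝ)⌋₊ gT B₂ T' TH :=
    c3.mono le_rfl (fun _ => hD1D) le_rfl le_rfl
  have hball : ChOK F c (r + 1) (fun _ => D₂) ⌊(t + q) * (J : ℝ)⌋₊ ⌊(t + q) * (J : ℝ)⌋₊ e' g'
      B₂ G' H' := (b7.ball.mono le_rfl (fun _ => hDD) le_rfl le_rfl).sub c1
  have hB₀ : κ' * Pe F.p B₀ ≤ Pe F.p B₂ := by
    rw [hκ', one_div, inv_mul_le_iff₀ (by positivity)]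
    calc Pe F.p B₀ ≤ K₁ * Pe F.p B := b2
      _ ≤ K₁ * (K₂ * Pe F.p B₂) := mul_le_mul_of_nonneg_left c2 hK₁.le
      _ = _ := by ring
  obtain ⟨B₃, d1, d2, d3⟩ := hbal hinj' hwa haJ b7.relb (fun ω hω => b1 ω (c1 ω hω)) hB₀
    hκ₀0.le hκκ hcT hball
  obtain ⟨hh, hhd⟩ : ∃ hh : ℕ, hh = C₁ * (h' + 1) + v := ⟨_, rfl⟩
  obtain ⟨u, hu⟩ : ∃ u : ℕ, u = C₂ * (hh + v + 1) := ⟨_, rfl⟩
  have hincl : ∀ ω, B₃ ω → ∀ b, NBx c (T' (ptr F J ω)) gT ⌊(t + q) * (J : ℝ)⌋₊ (F.t ω) r b →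
      ∀ j < r, |b (some (c j)) - eval b (G' (ptr F J ω) j)| ≤ 2 ^ u / 2 ^ g' j := by
    intro ω hω b hb j hj
    rw [hu]
    refine hinc hinj' (hcT.degG _) (hball.degG _) (hcT.depG _) (hball.depG _) hgv
      (fun l hl b hb => ?_) r le_rfl b hb j hj
    refine (d3 ω hω l hl.le b hb).trans ?_
    rw [div_le_div_iff₀ (by positivity) (by positivity), ← pow_add, ← pow_add]
    refine pow_le_pow_right₀ (by norm_num) ?_
    have e3 := hgv l hl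
    rw [hhd]
    omega
  -- the numbers
  have hh1 : (hh : ℝ) ≤ C₁ * (η * J + 1) + ((η + 2 * (ε * q)) * J + 2) := by
    rw [hhd]
    push_cast
    have := mul_le_mul_of_nonneg_left (add_le_add_left b4 1) (Nat.cast_nonneg (α := ℝ) C₁)
    linarith
  obtain ⟨Z, hZ⟩ : ∃ Z : ℝ, Z = (η + ε * q) * J := ⟨_, rfl⟩
  have hZ1 : 1 ≤ Z := by
    rw [hZ, add_mul]
    have := mul_nonneg hεq hJ0
    linarith
  have hηZ : η * J ≤ Z := by
    rw [hZ]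
    exact mul_le_mul_of_nonneg_right (by linarith) hJ0
  have hvZ : (v : ℝ) ≤ 2 * Z + 2 := by
    refine hv2.trans ?_
    have e3 : (η + 2 * (ε * q)) * J ≤ 2 * ((η + ε * q) * J) := by
      have e4 : 0 ≤ η * J := by positivity
      linarith
    rw [hZ]
    linarith
  have hC₁0 : (0 : ℝ) ≤ C₁ := Nat.cast_nonneg C₁
  have hC₂0 : (0 : ℝ) ≤ C₂ := Nat.cast_nonneg C₂
  have hC₃0 : (0 : ℝ) ≤ C₃ := Nat.cast_nonneg C₃
  have hhZ : (hh : ℝ) ≤ (2 * C₁ + 4) * Z := by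
    have e3 : (C₁ : ℝ) * (η * J + 1) ≤ C₁ * (Z + Z) :=
      mul_le_mul_of_nonneg_left (add_le_add hηZ hZ1) hC₁0
    have e4 : (η + 2 * (ε * q)) * J ≤ 2 * Z := by
      rw [hZ]
      have e5 : 0 ≤ η * J := by positivity
      linarith
    linarith
  have huZ : (u : ℝ) ≤ C₂ * (2 * C₁ + 9) * Z := by
    rw [hu]
    push_cast
    rw [mul_assoc]
    refine mul_le_mul_of_nonneg_left ?_ hC₂0
    have e3 : (2 * (C₁ : ℝ) + 9) * Z = (2 * C₁ + 4) * Z + 5 * Z := by ring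
    rw [e3]
    linarith
  obtain ⟨d, hd⟩ : ∃ d : ℕ, d = C₃ * (u + x + 1) := ⟨_, rfl⟩
  obtain ⟨d', hd'⟩ : ∃ d' : ℕ, d' = C₃ * (u + 1) := ⟨_, rfl⟩
  have hdZ : (d : ℝ) ≤ (M - 6) * Z := by
    rw [hd, hM]
    push_cast
    have e3 : (C₃ : ℝ) * (u + x + 1) ≤ C₃ * ((C₂ * (2 * C₁ + 9) + 2) * Z) := by
      refine mul_le_mul_of_nonneg_left ?_ hC₃0
      have e4 : (C₂ * (2 * (C₁ : ℝ) + 9) + 2) * Z = C₂ * (2 * C₁ + 9) * Z + 2 * Z := by ring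
      rw [e4]
      linarith
    refine e3.trans (le_of_eq ?_)
    ring
  have hdd : d' ≤ d := by
    rw [hd, hd']
    exact Nat.mul_le_mul_left _ (by omega)
  have hddr : (d' : ℝ) ≤ d := by exact_mod_cast hdd
  have hMZ : 2 * M * Z ≤ q * J := by
    rw [hZ]
    have e3 : 2 * M * (η + ε * q) ≤ q := hC.trans (mul_le_of_le_one_left hq.le hdel)
    have e4 := mul_le_mul_of_nonneg_right e3 hJ0
    linarith
  have hMZ6 : 6 * Z ≤ M * Z := mul_le_mul_of_nonneg_right hM0 (by linarith)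
  obtain ⟨hgr1, hgr2⟩ := b6 r le_rfl
  have hgr0 : q * J ≤ g' r + Z := by
    have e3 : (t + q - η) * J ≤ (L r (t + q) (t + q) - η) * J :=
      mul_le_mul_of_nonneg_right (by linarith) hJ0
    have e4 : 0 ≤ t * J := by positivity
    linarith
  have hdg : d ≤ g' r := by
    have e3 : (d : ℝ) ≤ g' r := by linarith
    exact_mod_cast e3
  obtain ⟨p, hp'⟩ : ∃ p : ℕ, p = g' r - d := ⟨_, rfl⟩
  have hpr : (p : ℝ) = g' r - d := by rw [hp', Nat.cast_sub hdg]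
  have hee : e' + d' + v ≤ ⌊e₂ r * (J : ℝ)⌋₊ := by
    refine Nat.le_floor ?_
    push_cast
    have e3 : (Eb r + η) * J + (M - 2) * Z + q * J ≤ e₂ r * J := by
      have e4 : (Eb r + 3 * q) * J ≤ e₂ r * J := mul_le_mul_of_nonneg_right hEe.le hJ0
      linarith
    have e5 : 0 ≤ q * J := by positivity
    linarith
  have hET : ⌊(E 0 + η) * (J : ℝ)⌋₊ ≤ ⌊e₂ r * (J : ℝ)⌋₊ := by
    refine Nat.floor_le_floor (mul_le_mul_of_nonneg_right ?_ hJ0)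
    have e3 : 2 * M * η ≤ 2 * M * (η + ε * q) := mul_le_mul_of_nonneg_left (by linarith)
      (by linarith)
    have e4 : 2 * M * (η + ε * q) ≤ q := hC.trans (mul_le_of_le_one_left hq.le hdel)
    have e5 : 6 * η ≤ M * η := mul_le_mul_of_nonneg_right hM0 hη.le
    linarith
  have hnear : ∀ ω, B₃ ω → ∀ b, NBx c (G' (ptr F J ω)) g' ⌊(t + q) * (J : ℝ)⌋₊ (F.t ω) r b →
      |eval b (G' (ptr F J ω) r) - eval b (Ht (slam F ⌊t * (J : ℝ)⌋₊ ω))| ≤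
        2 ^ x / 2 ^ g' r := fun ω hω => b7.near ω (c1 ω (d1 ω hω))
  have hL : Lab F c r (max D₂ D') ⌊(t + q) * (J : ℝ)⌋₊ ⌊t * (J : ℝ)⌋₊ ⌊e₂ r * (J : ℝ)⌋₊ p gT T'
      B₃ (fun y => G' y r) Ht :=
    hlab hinj' (hball.sub d1) b7.degH b7.depH hincl hnear hgv (by omega) (by omega)
  refine hnoA ⌊(t + q) * (J : ℝ)⌋₊ ⌊t * (J : ℝ)⌋₊ ⌊e₂ r * (J : ℝ)⌋₊ p (fun _ => D₂) gT T' TH
    (fun y => G' y r) Ht hwa le_rfl le_rfl le_rfl (fun _ => le_max_left _ _)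
    (fun l hl => hgTJ l hl.le) ?_ ?_ B₃ (fun ω hω => a1 ω (c1 ω (d1 ω hω))) ?_
    ((hcT.sub d1).mono (Nat.le_succ r) (fun _ => le_rfl) le_rfl hET) hL
  · have e3 : (p : ℝ) ≤ J := by
      rw [hpr]
      have e4 : (0 : ℝ) ≤ d := Nat.cast_nonneg d
      have e5 : L r (t + q) (t + q) * J ≤ 1 * J :=
        mul_le_mul_of_nonneg_right (hX1 r le_rfl).le hJ0
      linarith
    exact_mod_cast e3
  · rw [hpr]
    have e3 : (L r (t + q) t + (L r (t + q) (t + q) - 2 * M * (η + ε * q) - L r (t + q) t)) * J =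
        L r (t + q) (t + q) * J - 2 * M * Z := by
      rw [hZ]
      ring
    rw [e3]
    linarith
  · have e3 : Pe F.p A' ≤ Kc * Pe F.p B₃ := by
      calc Pe F.p A' ≤ K₁ * Pe F.p B := a2
        _ ≤ K₁ * (K₂ * Pe F.p B₂) := mul_le_mul_of_nonneg_left c2 hK₁.le
        _ ≤ K₁ * (K₂ * (2 * 4 ^ r * Pe F.p B₃)) :=
            mul_le_mul_of_nonneg_left (mul_le_mul_of_nonneg_left d2 hK₂.le) hK₁.le
        _ = _ := by rw [hKc]; ring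
    have e4 : Real.exp (-(δ * J)) * Kc ≤ 1 := by
      have e5 : Kc ≤ Real.exp (δ * J) := (Real.log_le_iff_le_exp hKc0).1 j2
      calc Real.exp (-(δ * J)) * Kc ≤ Real.exp (-(δ * J)) * Real.exp (δ * J) :=
            mul_le_mul_of_nonneg_left e5 (Real.exp_pos _).le
        _ = 1 := by rw [← Real.exp_add, neg_add_cancel, Real.exp_zero]
    calc Real.exp (-(δ * J)) * Pe F.p A' ≤ Real.exp (-(δ * J)) * (Kc * Pe F.p B₃) :=
          mul_le_mul_of_nonneg_left e3 (Real.exp_pos _).le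
      _ = (Real.exp (-(δ * J)) * Kc) * Pe F.p B₃ := by ring
      _ ≤ 1 * Pe F.p B₃ := mul_le_mul_of_nonneg_right e4 (hp _)
      _ = _ := one_mul _

end Pool.CNC78
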