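import Pool.Agent.H78.CNC.Lob
import Pool.Agent.H18.D2G.Arr
import Pool.Agent.H3.D2G.RecN
import Pool.Agent.H2.GEN.EvL

/-!
# No drop of the level, from a closed polynomial near the ball chart

`BLab`: on the event `B` the chart of the target of the ball of the window `o` is near a polynomial
which is closed at the earlier window `w`. `lab_sta`: if this holds on a positive part of all events of
the class of a record, the level of the target has no drop.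
-/

set_option autoImplicit false

namespace Pool.CNC78

open Finset Real MvPolynomial
open Pool.Agent.H49.Ent Pool.Agent.H32.Dense Pool.STK Pool.KA Pool.KSAT Pool.K2S Pool.PB Pool.S6C
open Pool.GEN Pool.CHT Pool.CHX Pool.ISO Pool.D2R Pool.PKG
open Pool.LBT (ThrOf)
open Pool.LEV (Law)
open Pool.NLB46 (Lab)
open Pool.RCD (floor_le)

variable {m : ℕ}

/-- **A closed polynomial near the ball chart** of the target `c r`: ball of the window `o`, closed at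
`w`. -/
structure BLab {J : ℕ} (F : Fam m J) (c : ℕ → Fin m) (r D Dr D' o w e h x : ℕ) (g : ℕ → ℕ) (κ : ℝ)
    (B₀ B : F.Ω → Prop) (G : PtT F → ℕ → MvPolynomial (Option (Fin m)) ℝ)
    (H : LnT F → ℕ → MvPolynomial (Option (Fin m)) ℝ)
    (Ht : LnT F → MvPolynomial (Option (Fin m)) ℝ) : Prop where
  ball : ChOK F c (r + 1) (fun _ => D) o o e g B G H
  relb : RelvF F c r o o g Dr h κ B₀ G
  degH : ∀ s, (Ht s).totalDegree ≤ D'
  depH : ∀ s, DepC c r (Ht s)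
  near : ∀ ω, B ω → ∀ b, NBx c (G (ptr F J ω)) g o (F.t ω) r b →
    |eval b (G (ptr F J ω) r) - eval b (Ht (slam F w ω))| ≤ 2 ^ x / 2 ^ g r

/-- The levels of slope one at a pair. -/
theorem lv_pair {S : PCl m} {al : ℝ} {g₀ : ℝ → ℝ}
    {P : List (Fin m) × Fin m → ℝ → ℝ → ℝ} {θ : ℝ}
    {P₂ : ℕ → List (Fin m) × Fin m → ℝ → ℝ → ℝ} {θ₂ Eb e₂ : ℕ → ℝ}
    {c : ℕ → Fin m} {Pt : ℝ → ℝ → ℝ} {rt : ℝ → ℝ} {h K₀ g : ℝ} {L T : ℕ → ℝ → ℝ → ℝ}
    {Sl : ℕ → ℝ} {κ : ℕ → Kg} {G : Set ℝ} {S₀ N : ℕ} {A V : ℕ → ℝ} {S₂ N' : ℕ} {V' : ℕ → ℝ}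
    {K ε q t : ℝ}
    (R : RecG S al g₀ P θ P₂ θ₂ Eb e₂ c Pt rt h K₀ g L T Sl κ G S₀ N A V S₂ N' V' K ε q t)
    (hK : 1 ≤ K) {l : ℕ} (hl : l < m) (hκ : κ l = .one)
    (hroom : L l (t + q) (t + q) < 1) :
    L l (t + q) (t + q) ≤ L l (t + q) t + ε * q := by
  have hq := R.q0
  have hKq : q ≤ K * q := le_mul_of_one_le_left hq.le hK
  have ht0 := R.t0
  have ht1 := R.t1
  have h1 := R.kd l hl
  rw [hκ] at h1
  have h2 : Sl l = 1 := h1
  have h3 := R.dL l hl (t + q) (by rw [add_sub_cancel_left, abs_of_pos hq]; exact hKq)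
  rw [h2, add_sub_cancel_left, one_mul] at h3
  have h4 := (R.lawL l hl).slope t t q (by linarith) le_rfl hq.le (by linarith)
  have h5 := (abs_le.1 h3).2
  rcases le_total 1 (L l t t + q) with h6 | h6
  · rw [min_eq_left h6] at h4
    have h7 := (R.lawL l hl).mono_w (t + q) t (t + q) (by linarith) (by linarith) le_rfl
      (by linarith)
    linarith
  · rw [min_eq_right h6] at h4
    linarith

/-- **No drop of the level of the target**, from closed polynomials near the ball charts. -/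
theorem lab_sta (r S₂ D : ℕ) (hr : 1 ≤ r) (hS₂ : 1 ≤ S₂) : ∃ Dr : ℕ, D ≤ Dr ∧
    ∀ D' : ℕ, ∃ C : ℝ, 1 ≤ C ∧ ∀ {m : ℕ} {S : PCl m} {al : ℝ} {g₀ : ℝ → ℝ}
    {P : List (Fin m) × Fin m → ℝ → ℝ → ℝ} {θ : ℝ}
    {P₂ : ℕ → List (Fin m) × Fin m → ℝ → ℝ → ℝ} {θ₂ Eb e₂ : ℕ → ℝ}
    {c : ℕ → Fin m} {Pt : ℝ → ℝ → ℝ} {rt : ℝ → ℝ} {h K₀ g : ℝ} {L T : ℕ → ℝ → ℝ → ℝ}
    {Sl : ℕ → ℝ} {κ : ℕ → Kg} {G : Set ℝ} {S₀ N : ℕ} {A V : ℕ → ℝ} {N' : ℕ} {V' : ℕ → ℝ}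
    {K ε q t : ℝ}
    (_ : RecG S al g₀ P θ P₂ θ₂ Eb e₂ c Pt rt h K₀ g L T Sl κ G S₀ N A V S₂ N' V' K ε q t)
    (_ : 1 ≤ K) (_ : 0 ≤ ε) (_ : r < m) (_ : ∀ l < r, κ l = .one) {k : ℕ} (_ : k < N)
    (_ : A k = 1) (_ : V k = 0) {η del : ℝ} (_ : 0 < η) (_ : del ≤ 1)
    (_ : C * (η + ε * q) ≤ del * q)
    (_ : ∃ K₁ : ℝ, 0 < K₁ ∧ ∀ κ₀ : ℝ, 0 < κ₀ → Bas S (fun J F A' =>
      ∃ (B₀ B : F.Ω → Prop) (e h x : ℕ) (g : ℕ → ℕ)
        (G : PtT F → ℕ → MvPolynomial (Option (Fin m)) ℝ)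
        (H : LnT F → ℕ → MvPolynomial (Option (Fin m)) ℝ)
        (Ht : LnT F → MvPolynomial (Option (Fin m)) ℝ), Sub B A' ∧ Sub B B₀ ∧
        Pe F.p A' ≤ K₁ * Pe F.p B ∧ Pe F.p B₀ ≤ K₁ * Pe F.p B ∧
        (e : ℝ) ≤ (Eb r + η) * J ∧ (h : ℝ) ≤ η * J ∧ (x : ℝ) ≤ η * J ∧
        (∀ l ≤ r, (L l (t + q) (t + q) - η) * J ≤ g l ∧ (g l : ℝ) ≤ L l (t + q) (t + q) * J) ∧
        BLab F c r D Dr D' ⌊(t + q) * J⌋₊ ⌊t * J⌋₊ e h x g κ₀ B₀ B G H Ht)),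
    L r (t + q) (t + q) ≤ L r (t + q) t + del * q := by
  obtain ⟨D₁, hD₁, hthin⟩ := thin_labs r S₂ hr hS₂
  obtain ⟨D₂, hD₂⟩ : ∃ D₂, D₂ = max D D₁ := ⟨_, rfl⟩
  have hDD : D ≤ D₂ := by rw [hD₂]; exact le_max_left _ _
  have hD1D : D₁ ≤ D₂ := by rw [hD₂]; exact le_max_right _ _
  refine ⟨D₂, hDD, fun D' => ?_⟩
  obtain ⟨C₁, hbal⟩ := bal_out D₂ r (hD₁.trans hD1D)
  obtain ⟨C₂, hinc⟩ := inc_of_bal D₂ r
  obtain ⟨C₃, hlab⟩ := lab_of_ball D₂ D' r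
  -- the constant: exponents in terms of `η + ε q`
  obtain ⟨M, hM⟩ : ∃ M : ℝ, M = C₃ * (C₂ * (2 * C₁ + 9) + 2) + 6 := ⟨_, rfl⟩
  have hM0 : 6 ≤ M := by
    rw [hM]
    have : (0 : ℝ) ≤ C₃ * (C₂ * (2 * C₁ + 9) + 2) := by positivity
    linarith
  refine ⟨2 * M, by linarith, ?_⟩
  intro m S al g₀ P θ P₂ θ₂ Eb e₂ c Pt rt h K₀ g L T Sl κ G S₀ N A V N' V' K ε q t R hK hε hrm hκ
    k hk hA hV η del hη hdel hC ⟨K₁, hK₁, H⟩
  have hq := R.q0
  have ht0 := R.t0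
  have ht1 := R.t1
  have hKq : q ≤ K * q := le_mul_of_one_le_left hq.le hK
  have hεq : 0 ≤ ε * q := mul_nonneg hε hq.le
  have W := R.tg r hr hrm
  have htp : 0 < t := by linarith
  have e1 : t + A k * q = t + q := by rw [hA, one_mul]
  have e2 : t + V k * q = t := by rw [hV, zero_mul, add_zero]
  obtain ⟨ρ, vs, e, e₀, E, sg, Q, hPD, hE0, -⟩ := (W.pt k hk).1
  rw [e1, e2] at hPD
  have hrat := W.ratN hk
  rw [e1, e2] at hrat
  have hroomA : ∀ j ≤ r, L j (t + q) (t + q) + Eb r + 3 * K * q < 1 := fun j hj =>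
    W.room j hj (t + q) (by rw [add_sub_cancel_left, abs_of_pos hq]; exact hKq)
  have hEb := W.Eb0
  have h3K : 3 * q ≤ 3 * K * q := by linarith
  have hX1 : ∀ j ≤ r, L j (t + q) (t + q) < 1 := fun j hj => by
    have := hroomA j hj
    linarith
  have hLw : ∀ j ≤ r, L j (t + q) t ≤ L j (t + q) (t + q) := fun j hj =>
    (R.lawL j (by omega)).mono_w (t + q) t (t + q) htp.le (by linarith) le_rfl (by linarith)
  have hlow : t + q ≤ L r (t + q) (t + q) := R.low_at hrm (by linarith) le_rfl (by linarith)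
  have heθ : e₂ r < θ₂ r * t := W.eθ t (by rw [sub_self, abs_zero]; positivity)
  have hEe : Eb r + 3 * q < e₂ r := by
    have := W.Ebe
    linarith
  have hinj : Set.InjOn c (Set.Iio (r + 1)) := R.inj.mono fun x hx => by
    rw [Set.mem_Iio] at hx ⊢
    omega
  have hinj' : Set.InjOn c (Set.Iio r) := hinj.mono fun x hx => by
    rw [Set.mem_Iio] at hx ⊢
    omega
  obtain ⟨K₂, dT, dN, hK₂, -, hdN, hth, -⟩ := hthin R.thr R.th0 R.tmh hinj (R.lawL r hrm) hPD 0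
    η η hη hη
  -- the events
  obtain ⟨κ', hκ'⟩ : ∃ κ' : ℝ, κ' = 1 / (K₁ * K₂) := ⟨_, rfl⟩
  have hκ'0 : 0 < κ' := by rw [hκ']; positivity
  obtain ⟨κ₀, hκ₀⟩ : ∃ κ₀ : ℝ, κ₀ = κ' / (4 * 4 ^ r) := ⟨_, rfl⟩
  have hκ₀0 : 0 < κ₀ := by rw [hκ₀]; positivity
  have hκκ : κ₀ * (4 * 4 ^ r) ≤ κ' := by
    rw [hκ₀, div_mul_cancel₀ _ (by positivity)]
  have hδq : 0 < η + ε * q := by linarith
  -- the theorem
  have hmain : L r (t + q) (t + q) - 2 * M * (η + ε * q) ≤ L r (t + q) t := by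
    refine rat_le R.ne W.thr₂ W.th₂0 (max D₂ D') 0 htp.le (by linarith) (by linarith) heθ
      (lt_of_le_of_lt (hLw r le_rfl) (hX1 r le_rfl)) hrat fun δ hδ => ?_
    -- events with all the data
    have H1 : Bas S (fun J F A' => ∃ B : F.Ω → Prop, Sub B A' ∧ Pe F.p A' ≤ K₁ * Pe F.p B ∧
        ∃ (B₀ : F.Ω → Prop) (e h x : ℕ) (g : ℕ → ℕ)
        (G : PtT F → ℕ → MvPolynomial (Option (Fin m)) ℝ)
        (H : LnT F → ℕ → MvPolynomial (Option (Fin m)) ℝ)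
        (Ht : LnT F → MvPolynomial (Option (Fin m)) ℝ), Sub B B₀ ∧
        Pe F.p B₀ ≤ K₁ * Pe F.p B ∧
        (e : ℝ) ≤ (Eb r + η) * J ∧ (h : ℝ) ≤ η * J ∧ (x : ℝ) ≤ η * J ∧
        (∀ l ≤ r, (L l (t + q) (t + q) - η) * J ≤ g l ∧ (g l : ℝ) ≤ L l (t + q) (t + q) * J) ∧
        BLab F c r D D₂ D' ⌊(t + q) * J⌋₊ ⌊t * J⌋₊ e h x g κ₀ B₀ B G H Ht) := by
      refine Bas.mono 0 (H κ₀ hκ₀0) ?_
      rintro J - F A' ⟨B₀, B, e, h, x, g, G, H, Ht, a1, a2, a3, a4, a5, a6, a7, a8, a9⟩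
      exact ⟨B, a1, a3, B₀, e, h, x, g, G, H, Ht, a2, a4, a5, a6, a7, a8, a9⟩
    obtain ⟨Kc, hKc⟩ : ∃ Kc : ℝ, Kc = K₁ * K₂ * (2 * 4 ^ r) := ⟨_, rfl⟩
    have hKc0 : 0 < Kc := by rw [hKc]; positivity
    -- large `J`
    obtain ⟨J₁, hJ₁⟩ := exists_nat_ge (M / η)
    obtain ⟨J₂, hJ₂⟩ := exists_nat_ge (Real.log Kc / δ)
    refine Bas.clp (Bas.mono (J₁ + J₂ + 1) (bas_then hK₁ H1 hth) ?_)
    rintro J hJ F A' ⟨B, a1, a2, ⟨B₀, e', h', x, g', G', H', Ht, b1, b2, b3, b4, b5, b6, b7⟩, B₂,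
      c1, c2, -, T', TH, c3⟩
    have hJ0 : (0 : ℝ) ≤ J := Nat.cast_nonneg J
    have j1 : M ≤ η * J := by
      have e3 : (J₁ : ℝ) ≤ J := by exact_mod_cast (by omega : J₁ ≤ J)
      have e4 := hJ₁.trans e3
      rw [div_le_iff₀ hη] at e4
      linarith
    have j2 : Real.log Kc ≤ δ * J := by
      have e3 : (J₂ : ℝ) ≤ J := by exact_mod_cast (by omega : J₂ ≤ J)
      have e4 := hJ₂.trans e3
      rw [div_le_iff₀ hδ] at e4
      linarith
    have hp := Pe_nonneg F.isLaw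
    -- the precisions of the thin chain
    obtain ⟨gT, hgT⟩ : ∃ gT : ℕ → ℕ, gT = fun l =>
      ⌊(lvN P c r (L r) l (t + q) t - dN l) * J⌋₊ := ⟨_, rfl⟩
    rw [← hgT] at c3
    have hgTl : ∀ l ≤ r, gT l = ⌊(L l (t + q) t - dN l) * J⌋₊ := fun l hl => by
      rw [hgT, R.lv_at hrm hl]
    have hgTJ : ∀ l ≤ r, gT l ≤ J := fun l hl => by
      rw [hgTl l hl]
      refine floor_le ?_ J
      have e3 := hLw l hl
      have e4 := hX1 l hl
      have e5 := (hdN l hl).1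
      linarith
    obtain ⟨v, hv⟩ : ∃ v : ℕ, v = ⌈(η + 2 * (ε * q)) * J⌉₊ + 1 := ⟨_, rfl⟩
    have hv1 : (η + 2 * (ε * q)) * J + 1 ≤ v := by
      rw [hv]
      push_cast
      linarith [Nat.le_ceil ((η + 2 * (ε * q)) * (J : ℝ))]
    have hv2 : (v : ℝ) ≤ (η + 2 * (ε * q)) * J + 2 := by
      rw [hv]
      push_cast
      linarith [Nat.ceil_lt_add_one (show 0 ≤ (η + 2 * (ε * q)) * (J : ℝ) by positivity)]
    have hgv : ∀ l < r, g' l ≤ gT l + v := by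
      intro l hl
      have e3 := (b6 l hl.le).2
      have e4 := lv_pair R hK (by omega : l < m) (hκ l hl) (hX1 l hl.le)
      have e5 := (hdN l hl.le).2.1
      have e6 := Nat.lt_floor_add_one ((L l (t + q) t - dN l) * (J : ℝ))
      rw [← hgTl l hl.le] at e6
      have e7 : (g' l : ℝ) ≤ gT l + v := by
        have e8 : L l (t + q) (t + q) * J ≤ (L l (t + q) t + ε * q) * J :=
          mul_le_mul_of_nonneg_right e4 hJ0
        have e9 : (L l (t + q) t - η) * J ≤ (L l (t + q) t - dN l) * J :=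
          mul_le_mul_of_nonneg_right (by linarith) hJ0
        have e10 : 0 ≤ ε * q * J := mul_nonneg hεq hJ0
        linarith
      exact_mod_cast e7
    -- the thin chain against the ball
    have hwa : ⌊t * (J : ℝ)⌋₊ ≤ ⌊(t + q) * (J : ℝ)⌋₊ :=
      Nat.floor_le_floor (mul_le_mul_of_nonneg_right (by linarith) hJ0)
    have haJ : ⌊(t + q) * (J : ℝ)⌋₊ ≤ J := floor_le (by linarith) J
    have hcT : ChOK F c (r + 1) (fun _ => D₂) ⌊(t + q) * (J : ℝ)⌋₊ ⌊t * (J : ℝ)⌋₊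
        ⌊(E 0 + η) * (J : ℝ)⌋₊ gT B₂ T' TH :=
      c3.mono le_rfl (fun _ => hD1D) le_rfl le_rfl
    have hball : ChOK F c (r + 1) (fun _ => D₂) ⌊(t + q) * (J : ℝ)⌋₊ ⌊(t + q) * (J : ℝ)⌋₊ e' g'
        B₂ G' H' := (b7.ball.mono le_rfl (fun _ => hDD) le_rfl le_rfl).sub c1
    have hB₀ : κ' * Pe F.p B₀ ≤ Pe F.p B₂ := by
      rw [hκ', one_div, inv_mul_le_iff₀ (by positivity)]
      calc Pe F.p B₀ ≤ K₁ * Pe F.p B := b2
        _ ≤ K₁ * (K₂ * Pe F.p B₂) := mul_le_mul_of_nonneg_left c2 hK₁.le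
        _ = _ := by ring
    obtain ⟨B₃, d1, d2, d3⟩ := hbal hinj' hwa haJ b7.relb (fun ω hω => b1 ω (c1 ω hω)) hB₀
      hκ₀0.le hκκ hcT hball
    obtain ⟨hh, hhd⟩ : ∃ hh : ℕ, hh = C₁ * (h' + 1) + v := ⟨_, rfl⟩
    obtain ⟨u, hu⟩ : ∃ u : ℕ, u = C₂ * (hh + v + 1) := ⟨_, rfl⟩
    have hincl : ∀ ω, B₃ ω → ∀ b, NBx c (T' (ptr F J ω)) gT ⌊(t + q) * (J : ℝ)⌋₊ (F.t ω) r b →
        ∀ j < r, |b (some (c j)) - eval b (G' (ptr F J ω) j)| ≤ 2 ^ u / 2 ^ g' j := by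
      intro ω hω b hb j hj
      rw [hu]
      refine hinc hinj' (hcT.degG _) (hball.degG _) (hcT.depG _) (hball.depG _) hgv
        (fun l hl b hb => ?_) r le_rfl b hb j hj
      refine (d3 ω hω l hl.le b hb).trans ?_
      rw [div_le_div_iff₀ (by positivity) (by positivity), ← pow_add, ← pow_add]
      refine pow_le_pow_right₀ (by norm_num) ?_
      have e3 := hgv l hl
      rw [hhd]
      omega
    -- the numbers
    have hh1 : (hh : ℝ) ≤ C₁ * (η * J + 1) + ((η + 2 * (ε * q)) * J + 2) := by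
      rw [hhd]
      push_cast
      have := mul_le_mul_of_nonneg_left (add_le_add_left b4 1) (Nat.cast_nonneg (α := ℝ) C₁)
      linarith
    obtain ⟨Z, hZ⟩ : ∃ Z : ℝ, Z = (η + ε * q) * J := ⟨_, rfl⟩
    have hZ1 : 1 ≤ Z := by
      rw [hZ, add_mul]
      have := mul_nonneg hεq hJ0
      linarith
    have hηZ : η * J ≤ Z := by
      rw [hZ]
      exact mul_le_mul_of_nonneg_right (by linarith) hJ0
    have hvZ : (v : ℝ) ≤ 2 * Z + 2 := by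
      refine hv2.trans ?_
      have e3 : (η + 2 * (ε * q)) * J ≤ 2 * ((η + ε * q) * J) := by
        have e4 : 0 ≤ η * J := by positivity
        linarith
      rw [hZ]
      linarith
    have hC₁0 : (0 : ℝ) ≤ C₁ := Nat.cast_nonneg C₁
    have hC₂0 : (0 : ℝ) ≤ C₂ := Nat.cast_nonneg C₂
    have hC₃0 : (0 : ℝ) ≤ C₃ := Nat.cast_nonneg C₃
    have hhZ : (hh : ℝ) ≤ (2 * C₁ + 4) * Z := by
      have e3 : (C₁ : ℝ) * (η * J + 1) ≤ C₁ * (Z + Z) :=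
        mul_le_mul_of_nonneg_left (add_le_add hηZ hZ1) hC₁0
      have e4 : (η + 2 * (ε * q)) * J ≤ 2 * Z := by
        rw [hZ]
        have e5 : 0 ≤ η * J := by positivity
        linarith
      linarith
    have huZ : (u : ℝ) ≤ C₂ * (2 * C₁ + 9) * Z := by
      rw [hu]
      push_cast
      rw [mul_assoc]
      refine mul_le_mul_of_nonneg_left ?_ hC₂0
      have e3 : (2 * (C₁ : ℝ) + 9) * Z = (2 * C₁ + 4) * Z + 5 * Z := by ring
      rw [e3]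
      linarith
    obtain ⟨d, hd⟩ : ∃ d : ℕ, d = C₃ * (u + x + 1) := ⟨_, rfl⟩
    obtain ⟨d', hd'⟩ : ∃ d' : ℕ, d' = C₃ * (u + 1) := ⟨_, rfl⟩
    have hdZ : (d : ℝ) ≤ (M - 6) * Z := by
      rw [hd, hM]
      push_cast
      have e3 : (C₃ : ℝ) * (u + x + 1) ≤ C₃ * ((C₂ * (2 * C₁ + 9) + 2) * Z) := by
        refine mul_le_mul_of_nonneg_left ?_ hC₃0
        have e4 : (C₂ * (2 * (C₁ : ℝ) + 9) + 2) * Z = C₂ * (2 * C₁ + 9) * Z + 2 * Z := by ring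
        rw [e4]
        linarith
      refine e3.trans (le_of_eq ?_)
      ring
    have hdd : d' ≤ d := by
      rw [hd, hd']
      exact Nat.mul_le_mul_left _ (by omega)
    have hddr : (d' : ℝ) ≤ d := by exact_mod_cast hdd
    have hMZ : 2 * M * Z ≤ q * J := by
      rw [hZ]
      have e3 : 2 * M * (η + ε * q) ≤ q := hC.trans (mul_le_of_le_one_left hq.le hdel)
      have e4 := mul_le_mul_of_nonneg_right e3 hJ0
      linarith
    have hMZ6 : 6 * Z ≤ M * Z := mul_le_mul_of_nonneg_right hM0 (by linarith)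
    obtain ⟨hgr1, hgr2⟩ := b6 r le_rfl
    have hgr0 : q * J ≤ g' r + Z := by
      have e3 : (t + q - η) * J ≤ (L r (t + q) (t + q) - η) * J :=
        mul_le_mul_of_nonneg_right (by linarith) hJ0
      have e4 : 0 ≤ t * J := by positivity
      linarith
    have hdg : d ≤ g' r := by
      have e3 : (d : ℝ) ≤ g' r := by linarith
      exact_mod_cast e3
    obtain ⟨p, hp'⟩ : ∃ p : ℕ, p = g' r - d := ⟨_, rfl⟩
    have hpr : (p : ℝ) = g' r - d := by rw [hp', Nat.cast_sub hdg]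
    have hee : e' + d' + v ≤ ⌊e₂ r * (J : ℝ)⌋₊ := by
      refine Nat.le_floor ?_
      push_cast
      have e3 : (Eb r + η) * J + (M - 2) * Z + q * J ≤ e₂ r * J := by
        have e4 : (Eb r + 3 * q) * J ≤ e₂ r * J := mul_le_mul_of_nonneg_right hEe.le hJ0
        linarith
      have e5 : 0 ≤ q * J := by positivity
      linarith
    have hET : ⌊(E 0 + η) * (J : ℝ)⌋₊ ≤ ⌊e₂ r * (J : ℝ)⌋₊ := by
      refine Nat.floor_le_floor (mul_le_mul_of_nonneg_right ?_ hJ0)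
      have e3 : 2 * M * η ≤ 2 * M * (η + ε * q) := mul_le_mul_of_nonneg_left (by linarith)
        (by linarith)
      have e4 : 2 * M * (η + ε * q) ≤ q := hC.trans (mul_le_of_le_one_left hq.le hdel)
      have e5 : 6 * η ≤ M * η := mul_le_mul_of_nonneg_right hM0 hη.le
      linarith
    have hnear : ∀ ω, B₃ ω → ∀ b, NBx c (G' (ptr F J ω)) g' ⌊(t + q) * (J : ℝ)⌋₊ (F.t ω) r b →
        |eval b (G' (ptr F J ω) r) - eval b (Ht (slam F ⌊t * (J : ℝ)⌋₊ ω))| ≤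
          2 ^ x / 2 ^ g' r := fun ω hω => b7.near ω (c1 ω (d1 ω hω))
    have hL : Lab F c r (max D₂ D') ⌊(t + q) * (J : ℝ)⌋₊ ⌊t * (J : ℝ)⌋₊ ⌊e₂ r * (J : ℝ)⌋₊ p gT T'
        B₃ (fun y => G' y r) Ht :=
      hlab hinj' (hball.sub d1) b7.degH b7.depH hincl hnear hgv (by omega) (by omega)
    refine ⟨⌊(t + q) * (J : ℝ)⌋₊, ⌊t * (J : ℝ)⌋₊, ⌊e₂ r * (J : ℝ)⌋₊, p, fun _ => D₂, gT, T', TH,
      fun y => G' y r, Ht, B₃, hwa, le_rfl, le_rfl, le_rfl, fun _ => le_max_left _ _,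
      fun l hl => hgTJ l hl.le, ?_, ?_, fun ω hω => a1 ω (c1 ω (d1 ω hω)), ?_,
      (hcT.sub d1).mono (Nat.le_succ r) (fun _ => le_rfl) le_rfl hET, hL⟩
    · have e3 : (p : ℝ) ≤ J := by
        rw [hpr]
        have e4 : (0 : ℝ) ≤ d := Nat.cast_nonneg d
        have e5 : L r (t + q) (t + q) * J ≤ 1 * J :=
          mul_le_mul_of_nonneg_right (hX1 r le_rfl).le hJ0
        linarith
      exact_mod_cast e3
    · rw [hpr]
      have e3 : (L r (t + q) (t + q) - 2 * M * (η + ε * q)) * J =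
          L r (t + q) (t + q) * J - 2 * M * Z := by
        rw [hZ]
        ring
      rw [e3]
      linarith
    · have e3 : Pe F.p A' ≤ Kc * Pe F.p B₃ := by
        calc Pe F.p A' ≤ K₁ * Pe F.p B := a2
          _ ≤ K₁ * (K₂ * Pe F.p B₂) := mul_le_mul_of_nonneg_left c2 hK₁.le
          _ ≤ K₁ * (K₂ * (2 * 4 ^ r * Pe F.p B₃)) :=
              mul_le_mul_of_nonneg_left (mul_le_mul_of_nonneg_left d2 hK₂.le) hK₁.le
          _ = _ := by rw [hKc]; ring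
      have e4 : Real.exp (-(δ * J)) * Kc ≤ 1 := by
        have e5 : Kc ≤ Real.exp (δ * J) := (Real.log_le_iff_le_exp hKc0).1 j2
        calc Real.exp (-(δ * J)) * Kc ≤ Real.exp (-(δ * J)) * Real.exp (δ * J) :=
              mul_le_mul_of_nonneg_left e5 (Real.exp_pos _).le
          _ = 1 := by rw [← Real.exp_add, neg_add_cancel, Real.exp_zero]
      calc Real.exp (-(δ * J)) * Pe F.p A' ≤ Real.exp (-(δ * J)) * (Kc * Pe F.p B₃) :=
            mul_le_mul_of_nonneg_left e3 (Real.exp_pos _).le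
        _ = (Real.exp (-(δ * J)) * Kc) * Pe F.p B₃ := by ring
        _ ≤ 1 * Pe F.p B₃ := mul_le_mul_of_nonneg_right e4 (hp _)
        _ = _ := one_mul _
  have h2M : 2 * M * (η + ε * q) ≤ del * q := hC
  linarith

end Pool.CNC78
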